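import Pool.Agent.R709.BS.Main

/-!
# The map from the Balmer spectrum of a Hopf algebra to that of its double can fail to be injective

There is a finite-dimensional Hopf algebra `H` over a field `k` for which the map
`f : Spc stmod(H) → Spc stmod(D(H))`, `f(P) = F⁻¹(P)`, is not injective.  In fact there is
a commutative one of dimension eight over every field of characteristic two which is not perfect:
for `a ∈ k` not a square,
`H = k[x, w] / (x⁴ - a x², w²)`, `e = a⁻¹ x²`,
`Δ x = x ⊗ 1 + 1 ⊗ x + e ⊗ w`, `Δ w = w ⊗ 1 + 1 ⊗ w`.

The two primes consist of the modules on which the kernel of `x` (respectively, of `x + w`) is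
contained in its image.  They are different, but they have the same preimage in `stmod(D(H))`,
since the grouplike element of `H^* ⊗ k(√a)` given by `x ↦ √a`, `w ↦ 0` conjugates `x` into
`x + w` in `D(H) ⊗ k(√a)`.
-/

namespace Pool.Agent.Results.MP_3775ab_al.NotInjective

open Pool.Agent.R709.BS

/-- There are a field `k` and a finite-dimensional Hopf algebra `H` over `k` for which the map
`f : Spc stmod(H) → Spc stmod(D(H))` is not injective; and over every field of characteristic two
having an element which is not a square there is such an `H` which is commutative of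
dimension eight. -/
theorem result :
    (∃ (k : Type) (_ : Field k) (H : Type) (_ : CommRing H) (_ : HopfAlgebra k H),
      FiniteDimensional k H ∧ ¬ Function.Injective (balmerMap k H)) ∧
    (∀ (k : Type) [Field k] [CharP k 2], (∃ a : k, ¬ IsSquare a) →
      ∃ (H : Type) (_ : CommRing H) (_ : HopfAlgebra k H),
        Module.finrank k H = 8 ∧ ¬ Function.Injective (balmerMap k H)) := by
  refine ⟨?_, fun k _ _ hk => main k hk⟩
  have hX : ¬ IsSquare (RatFunc.X : RatFunc (ZMod 2)) := by
    rintro ⟨r, hr⟩
    have hr0 : r ≠ 0 := by
      rintro rfl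
      rw [mul_zero] at hr
      exact RatFunc.X_ne_zero hr
    have h := congrArg RatFunc.intDegree hr
    rw [RatFunc.intDegree_X, RatFunc.intDegree_mul hr0 hr0] at h
    omega
  have hc : CharP (RatFunc (ZMod 2)) 2 :=
    charP_of_injective_algebraMap (algebraMap (ZMod 2) (RatFunc (ZMod 2))).injective 2
  obtain ⟨H, i1, i2, h1, h2⟩ := main (RatFunc (ZMod 2)) ⟨RatFunc.X, hX⟩
  exact ⟨RatFunc (ZMod 2), inferInstance, H, i1, i2,
    FiniteDimensional.of_finrank_pos (by rw [h1]; norm_num), h2⟩

end Pool.Agent.Results.MP_3775ab_al.NotInjective
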